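import Mathlib
import Pool.Agent.V11110.JBStar

/-!
The Jordan product of the multiplier algebra of a JB*-algebra is jointly J-strict continuous on
bounded sets.
-/

open Topology Filter Pool.Agent.V11110.JBStar

namespace Pool.Agent.Results.MP_2cba5e_an.JointContinuity

variable {A B : Type*} [JBStarAlgebra A] [JBStarAlgebra B] {E : Embedding A B}

/-- If `f → c` in norm with `c ∈ A`, and `v` is bounded and converges J-strictly to `y`, then
`f v → c y` in norm. -/
lemma tendsto_aux {ι κ : Type*} {l₁ : Filter ι} {l₂ : Filter κ} {f : ι → B} {v : κ → Mult E}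
    {c : A} {y : Mult E} {K : ℝ} (hf : Tendsto f l₁ (𝓝 (E.j c))) (hK : ∀ k, ‖(v k).1‖ ≤ K)
    (hv : Tendsto v l₂ (𝓝 y)) :
    Tendsto (fun p : ι × κ => f p.1 * (v p.2).1) (l₁ ×ˢ l₂) (𝓝 (E.j c * y.1)) := by
  have h1 : Tendsto (fun p : ι × κ => (f p.1 - E.j c) * (v p.2).1) (l₁ ×ˢ l₂) (𝓝 0) := by
    have h2 : Tendsto (fun p : ι × κ => ‖f p.1 - E.j c‖ * K) (l₁ ×ˢ l₂) (𝓝 0) := by
      have h3 : Tendsto (fun i => ‖f i - E.j c‖ * K) l₁ (𝓝 (0 * K)) :=
        (tendsto_iff_norm_sub_tendsto_zero.1 hf).mul_const K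
      rw [zero_mul] at h3
      exact h3.comp tendsto_fst
    refine squeeze_zero_norm (fun p => ?_) h2
    exact (JBStarAlgebra.norm_mul_le _ _).trans
      (mul_le_mul_of_nonneg_left (hK p.2) (norm_nonneg _))
  have h4 : Tendsto (fun p : ι × κ => E.j c * (v p.2).1) (l₁ ×ˢ l₂) (𝓝 (E.j c * y.1)) :=
    (tendsto_iff.1 hv c).comp tendsto_snd
  have h5 := h1.add h4
  rw [zero_add] at h5
  refine h5.congr fun p => ?_
  rw [sub_mul, sub_add_cancel]

/-- **Joint J-strict continuity on bounded sets of the Jordan product of `M(A)`.**  If `u` and `v`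
are norm-bounded nets in `M(A)` converging J-strictly to `x` and `y`, then the net
`(u i) (v k)`, indexed by the pairs `(i, k)`, converges J-strictly to `x y`. -/
theorem result {A B : Type*} [JBStarAlgebra A] [JBStarAlgebra B] (E : Embedding A B)
    {ι κ : Type*} (l₁ : Filter ι) (l₂ : Filter κ) (u : ι → Mult E) (v : κ → Mult E)
    (x y : Mult E) (hbu : ∃ K : ℝ, ∀ i, ‖(u i).1‖ ≤ K) (hbv : ∃ K : ℝ, ∀ k, ‖(v k).1‖ ≤ K)
    (hu : Tendsto u l₁ (𝓝 x)) (hv : Tendsto v l₂ (𝓝 y)) :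
    Tendsto (fun p : ι × κ => u p.1 * v p.2) (l₁ ×ˢ l₂) (𝓝 (x * y)) := by
  obtain ⟨K₁, hK₁⟩ := hbu
  obtain ⟨K₂, hK₂⟩ := hbv
  rw [tendsto_iff]
  intro a
  have ha := mem_span_sq a
  induction ha using Submodule.span_induction with
  | mem z hz =>
    obtain ⟨b, rfl⟩ := hz
    have h : ∀ p q : Mult E, E.j (b * b) * (p * q).1 =
        p.1 * (E.j (b * b) * q.1) + (2 : ℂ) • (E.j b * ((E.j b * p.1) * q.1)) -
          (2 : ℂ) • ((E.j b * p.1) * (E.j b * q.1)) := by
      intro p q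
      rw [coe_mul, E.map_mul, sq_mul]
    simp only [h]
    have hub : Tendsto (fun i => E.j b * (u i).1) l₁ (𝓝 (E.j b * x.1)) := tendsto_iff.1 hu b
    have hvb : Tendsto (fun k => E.j b * (v k).1) l₂ (𝓝 (E.j b * y.1)) := tendsto_iff.1 hv b
    have hvbb : Tendsto (fun k => E.j (b * b) * (v k).1) l₂ (𝓝 (E.j (b * b) * y.1)) :=
      tendsto_iff.1 hv (b * b)
    obtain ⟨c, hc⟩ := exists_left x b
    obtain ⟨d, hd⟩ := exists_left y (b * b)
    have t1 : Tendsto (fun p : ι × κ => (u p.1).1 * (E.j (b * b) * (v p.2).1)) (l₁ ×ˢ l₂)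
        (𝓝 (x.1 * (E.j (b * b) * y.1))) := by
      have h1 : Tendsto (fun k => E.j (b * b) * (v k).1) l₂ (𝓝 (E.j d)) := by
        rw [← hd]; exact hvbb
      have h2 := (tendsto_aux (E := E) h1 hK₁ hu).comp (tendsto_snd.prodMk tendsto_fst)
      rw [hd, mul_comm x.1 (E.j d)]
      refine h2.congr fun p => ?_
      exact mul_comm _ _
    have t2 : Tendsto (fun p : ι × κ => (E.j b * (u p.1).1) * (v p.2).1) (l₁ ×ˢ l₂)
        (𝓝 ((E.j b * x.1) * y.1)) := by
      rw [hc]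
      rw [hc] at hub
      exact tendsto_aux hub hK₂ hv
    have t3 : Tendsto (fun p : ι × κ => (E.j b * (u p.1).1) * (E.j b * (v p.2).1)) (l₁ ×ˢ l₂)
        (𝓝 ((E.j b * x.1) * (E.j b * y.1))) :=
      (hub.comp tendsto_fst).mul (hvb.comp tendsto_snd)
    exact (t1.add ((tendsto_const_nhds.mul t2).const_smul _)).sub (t3.const_smul _)
  | zero =>
    simp only [map_zero, zero_mul]
    exact tendsto_const_nhds
  | add u v _ _ hu hv =>
    simp only [map_add, add_mul]
    exact hu.add hv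
  | smul c u _ hu =>
    simp only [map_smul, smul_mul_assoc]
    exact hu.const_smul c

end Pool.Agent.Results.MP_2cba5e_an.JointContinuity
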